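import Pool.Agent.H618R2.Skew.T9

/-!
# Acyclic orientations of graphs given by 0-1 matrices
-/

namespace Pool.Agent.Y562.AO

open Pool.Agent.H618R2.Skew (IsPermutationGraph)

/-- the entry `(i, j)` of the matrix is `1` -/
def adj (M : List (List Bool)) (i j : ℕ) : Prop := (M.getD i []).getD j false = true

/-- The matrix is the adjacency matrix of a simple graph: it is square and symmetric and its
diagonal is zero. -/
def IsGraph (M : List (List Bool)) : Prop :=
  (∀ r ∈ M, r.length = M.length) ∧ (∀ i : Fin M.length, ¬ adj M i i) ∧
    ∀ i j : Fin M.length, adj M i j → adj M j i

/-- The graph of the matrix `M`: the vertices are the indices of the rows, and `i ≠ j` are adjacent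
if the entry `(i, j)` or the entry `(j, i)` is `1`. -/
def graph (M : List (List Bool)) : SimpleGraph (Fin M.length) :=
  SimpleGraph.fromRel fun i j => adj M i j

/-- An acyclic orientation of a simple graph, given by its set of arcs: every arc joins two adjacent
vertices, every edge receives a direction, and there is no directed cycle (in particular no edge
receives both directions). -/
structure IsAcyclicOrientation {V : Type*} (G : SimpleGraph V) (O : V → V → Prop) : Prop where
  sub : ∀ u v, O u v → G.Adj u v
  total : ∀ u v, G.Adj u v → O u v ∨ O v u
  acyclic : ∀ v, ¬ Relation.TransGen O v v

open Classical in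
/-- The number of acyclic orientations of the graph given by the matrix `M` (and `0` if `M` is not
the adjacency matrix of a simple graph). -/
noncomputable def numAO (M : List (List Bool)) : ℕ :=
  if IsGraph M then
    Nat.card {O : Fin M.length → Fin M.length → Prop // IsAcyclicOrientation (graph M) O} else 0

/-- The matrices of the graphs that are permutation graphs and whose complement is bipartite. -/
def Nice (M : List (List Bool)) : Prop :=
  IsGraph M ∧ IsPermutationGraph (graph M) ∧ (graph M)ᶜ.Colorable 2

end Pool.Agent.Y562.AO
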