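import Mathlib

/-!
# The number of arrangements with prescribed consecutive pairs
-/

namespace Pool.Agent.Y562.AO

open List

theorem pair_infix_cons {α : Type*} (x y z : α) (l : List α) :
    [x, y] <:+: z :: l ↔ (x = z ∧ ∃ l', l = y :: l') ∨ [x, y] <:+: l := by
  rw [List.infix_cons_iff, List.cons_prefix_cons]
  refine or_congr (and_congr Iff.rfl ?_) Iff.rfl
  cases l with
  | nil => simp
  | cons a l => simp [List.cons_prefix_cons, eq_comm]

section Glue

variable {α : Type*} (T : α → Bool) (h : α → α) (D : α → Bool)

/-- replace the first components by the pairs -/
def expand (l : List α) : List α := l.flatMap fun x => if T x then [x, h x] else [x]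

/-- delete the second components -/
def contract (l : List α) : List α := l.filter fun x => !D x

theorem expand_cons (x : α) (l : List α) :
    expand T h (x :: l) = (if T x then [x, h x] else [x]) ++ expand T h l := by
  rw [expand, List.flatMap_cons, expand]

variable {T h D} (hTD : ∀ x, T x = true → D (h x) = true) (hDT : ∀ x, T x = true → D x = false)
  (hDex : ∀ y, D y = true → ∃ x, T x = true ∧ h x = y)
  (hinj : ∀ x y, T x = true → T y = true → h x = h y → x = y)

include hTD in
theorem contract_expand (l : List α) (hl : ∀ x ∈ l, D x = false) :
    contract D (expand T h l) = l := by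
  induction l with
  | nil => rfl
  | cons x l ih =>
    have h1 := ih fun y hy => hl y (List.mem_cons_of_mem _ hy)
    have h2 := hl x List.mem_cons_self
    rw [expand_cons, contract, List.filter_append]
    rw [contract] at h1
    rw [h1]
    by_cases hx : T x = true
    · rw [if_pos hx]
      simp [h2, hTD x hx]
    · rw [if_neg hx]
      simp [h2]

include hTD hDT in
theorem expand_contract (m : ℕ) (l : List α) (hm : l.length ≤ m) (hnd : l.Nodup)
    (h1 : ∀ x ∈ l, T x = true → [x, h x] <:+: l)
    (h2 : ∀ y ∈ l, D y = true → ∃ x ∈ l, T x = true ∧ h x = y) :
    expand T h (contract D l) = l := by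
  induction m generalizing l with
  | zero =>
    have : l = [] := List.length_eq_zero_iff.1 (by omega)
    subst this
    rfl
  | succ m ih =>
    cases l with
    | nil => rfl
    | cons z l1 =>
      have hnd1 : z ∉ l1 ∧ l1.Nodup := List.nodup_cons.1 hnd
      by_cases hz : T z = true
      · have h3 := h1 z List.mem_cons_self hz
        rw [pair_infix_cons] at h3
        rcases h3 with ⟨_, l2, rfl⟩ | h3
        · have hnd2 : h z ∉ l2 ∧ l2.Nodup := List.nodup_cons.1 hnd1.2
          have e : expand T h (contract D l2) = l2 := by
            apply ih l2 (by simp only [List.length_cons] at hm; omega) hnd2.2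
            · intro x hx hTx
              have h4 := h1 x (by simp [hx]) hTx
              rw [pair_infix_cons, pair_infix_cons] at h4
              rcases h4 with ⟨h4, _⟩ | ⟨h4, _⟩ | h4
              · subst h4
                exact absurd (List.mem_cons_of_mem _ hx) hnd1.1
              · subst h4
                have := hDT _ hTx
                rw [hTD z hz] at this
                exact absurd this (by simp)
              · exact h4
            · intro y hy hDy
              obtain ⟨x, hx, hTx, hxy⟩ := h2 y (by simp [hy]) hDy
              rw [List.mem_cons, List.mem_cons] at hx
              rcases hx with hx | hx | hx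
              · subst hx
                rw [← hxy] at hy
                exact absurd hy hnd2.1
              · subst hx
                have := hDT _ hTx
                rw [hTD z hz] at this
                exact absurd this (by simp)
              · exact ⟨x, hx, hTx, hxy⟩
          have e2 : contract D (z :: h z :: l2) = z :: contract D l2 := by
            rw [contract, contract, List.filter_cons, hDT z hz, List.filter_cons, hTD z hz]
            simp
          rw [e2, expand_cons, if_pos hz, e]
          rfl
        · have : z ∈ l1 := h3.subset List.mem_cons_self
          exact absurd this hnd1.1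
      · have hDz : D z = false := by
          cases hD : D z with
          | false => rfl
          | true =>
            obtain ⟨x, hx, hTx, hxz⟩ := h2 z List.mem_cons_self hD
            have h3 := h1 x hx hTx
            rw [pair_infix_cons, hxz] at h3
            rcases h3 with ⟨h3, _⟩ | h3
            · subst h3
              exact absurd hTx hz
            · have : z ∈ l1 := h3.subset (by simp)
              exact absurd this hnd1.1
        have e : expand T h (contract D l1) = l1 := by
          apply ih l1 (by simp only [List.length_cons] at hm; omega) hnd1.2
          · intro x hx hTx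
            have h4 := h1 x (by simp [hx]) hTx
            rw [pair_infix_cons] at h4
            rcases h4 with ⟨h4, _⟩ | h4
            · subst h4
              exact absurd hTx hz
            · exact h4
          · intro y hy hDy
            obtain ⟨x, hx, hTx, hxy⟩ := h2 y (by simp [hy]) hDy
            rw [List.mem_cons] at hx
            rcases hx with hx | hx
            · subst hx
              exact absurd hTx hz
            · exact ⟨x, hx, hTx, hxy⟩
        have e2 : contract D (z :: l1) = z :: contract D l1 := by
          rw [contract, contract, List.filter_cons, hDz]
          simp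
        rw [e2, expand_cons, if_neg hz, e]
        rfl

include hTD hDT hDex hinj in
theorem expand_contract_perm (l0 : List α) (hnd : l0.Nodup)
    (hT0 : ∀ x, T x = true → x ∈ l0 ∧ h x ∈ l0) : expand T h (contract D l0) ~ l0 := by
  have hmemc : ∀ x, x ∈ contract D l0 ↔ x ∈ l0 ∧ D x = false := by
    intro x
    rw [contract, List.mem_filter]
    simp
  rw [List.perm_ext_iff_of_nodup _ hnd]
  · intro z
    rw [expand, List.mem_flatMap]
    constructor
    · rintro ⟨x, hx, hz⟩
      rw [hmemc] at hx
      by_cases hTx : T x = true
      · rw [if_pos hTx] at hz
        simp only [List.mem_cons, List.not_mem_nil, or_false] at hz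
        rcases hz with hz | hz
        · rw [hz]
          exact hx.1
        · rw [hz]
          exact (hT0 x hTx).2
      · rw [if_neg hTx, List.mem_singleton] at hz
        rw [hz]
        exact hx.1
    · intro hz
      cases hDz : D z with
      | false =>
        refine ⟨z, (hmemc z).2 ⟨hz, hDz⟩, ?_⟩
        split_ifs <;> simp
      | true =>
        obtain ⟨x, hTx, hxz⟩ := hDex z hDz
        refine ⟨x, (hmemc x).2 ⟨(hT0 x hTx).1, hDT x hTx⟩, ?_⟩
        rw [if_pos hTx, ← hxz]
        simp
  · rw [expand, List.nodup_flatMap]
    constructor
    · intro x _
      split_ifs with hTx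
      · have : x ≠ h x := by
          intro he
          have h1 := hDT x hTx
          have h2 := hTD x hTx
          rw [← he, h1] at h2
          exact absurd h2 (by simp)
        simp [this]
      · simp
    · have hnd' : (contract D l0).Nodup := hnd.filter _
      refine List.Pairwise.imp_of_mem ?_ hnd'
      intro x y hx hy hxy
      rw [hmemc] at hx hy
      rw [Function.onFun, List.disjoint_left]
      intro z hz1 hz2
      have key : ∀ u, (z ∈ (if T u then [u, h u] else [u])) → z = u ∨ (T u = true ∧ z = h u) := by
        intro u hu
        split_ifs at hu with hTu
        · simp only [List.mem_cons, List.not_mem_nil, or_false] at hu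
          rcases hu with hu | hu
          · exact Or.inl hu
          · exact Or.inr ⟨hTu, hu⟩
        · rw [List.mem_singleton] at hu
          exact Or.inl hu
      rcases key x hz1 with e1 | ⟨e1, e1'⟩ <;> rcases key y hz2 with e2 | ⟨e2, e2'⟩
      · exact hxy (e1.symm.trans e2)
      · have := hTD y e2
        rw [← e2', e1, hx.2] at this
        exact absurd this (by simp)
      · have := hTD x e1
        rw [← e1', e2, hy.2] at this
        exact absurd this (by simp)
      · exact hxy (hinj x y e1 e2 (e1'.symm.trans e2'))

include hTD hDT hDex hinj in
theorem glue_card [DecidableEq α] (l0 : List α) (hnd : l0.Nodup)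
    (hT0 : ∀ x, T x = true → x ∈ l0 ∧ h x ∈ l0)
    [DecidablePred fun l : List α => ∀ x, T x = true → [x, h x] <:+: l] :
    (l0.permutations.toFinset.filter fun l => ∀ x, T x = true → [x, h x] <:+: l).card =
      (contract D l0).length.factorial := by
  have h1 : (contract D l0).permutations.toFinset.card = (contract D l0).length.factorial := by
    have h2 : (contract D l0).Nodup := hnd.filter _
    rw [List.toFinset_card_of_nodup (List.nodup_permutations _ h2), List.length_permutations]
  rw [← h1]
  refine Finset.card_nbij' (contract D) (expand T h) ?_ ?_ ?_ ?_
  · intro l hl
    rw [Finset.mem_coe, Finset.mem_filter, List.mem_toFinset, List.mem_permutations] at hl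
    rw [Finset.mem_coe, List.mem_toFinset, List.mem_permutations]
    exact hl.1.filter _
  · intro l hl
    rw [Finset.mem_coe, List.mem_toFinset, List.mem_permutations] at hl
    rw [Finset.mem_coe, Finset.mem_filter, List.mem_toFinset, List.mem_permutations]
    refine ⟨(hl.flatMap_right _).trans (expand_contract_perm hTD hDT hDex hinj l0 hnd hT0), ?_⟩
    intro x hTx
    have h2 : x ∈ l := by
      rw [hl.mem_iff, contract, List.mem_filter]
      exact ⟨(hT0 x hTx).1, by simp [hDT x hTx]⟩
    have h3 := List.infix_flatMap_of_mem h2 (fun x => if T x then [x, h x] else [x])
    simp only [if_pos hTx] at h3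
    exact h3
  · intro l hl
    rw [Finset.mem_coe, Finset.mem_filter, List.mem_toFinset, List.mem_permutations] at hl
    refine expand_contract hTD hDT l.length l le_rfl (hl.1.nodup_iff.2 hnd)
      (fun x _ hTx => hl.2 x hTx) ?_
    intro y _ hDy
    obtain ⟨x, hTx, hxy⟩ := hDex y hDy
    exact ⟨x, hl.1.mem_iff.2 (hT0 x hTx).1, hTx, hxy⟩
  · intro l hl
    rw [Finset.mem_coe, List.mem_toFinset, List.mem_permutations] at hl
    apply contract_expand hTD
    intro x hx
    rw [hl.mem_iff, contract, List.mem_filter] at hx
    simpa using hx.2

end Glue

end Pool.Agent.Y562.AO
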