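import Pool.Agent.Y562.AO.Defs

/-!
# Normal forms of acyclic orientations
-/

namespace Pool.Agent.Y562.AO

variable {n : ℕ} {G : SimpleGraph (Fin n)}

/-- lexicographic normal form of a sequence of vertices -/
def IsNF (G : SimpleGraph (Fin n)) (σ : Equiv.Perm (Fin n)) : Prop :=
  ∀ i j : Fin n, i < j → σ j < σ i → ∃ k, i ≤ k ∧ k < j ∧ G.Adj (σ k) (σ j)

/-- the orientation from left to right -/
def orient (G : SimpleGraph (Fin n)) (σ : Equiv.Perm (Fin n)) : Fin n → Fin n → Prop :=
  fun u v => G.Adj u v ∧ σ.symm u < σ.symm v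

theorem orient_acyclic (σ : Equiv.Perm (Fin n)) : IsAcyclicOrientation G (orient G σ) := by
  refine ⟨fun u v h => h.1, fun u v h => ?_, fun v h => ?_⟩
  · rcases lt_trichotomy (σ.symm u) (σ.symm v) with h1 | h1 | h1
    · exact Or.inl ⟨h, h1⟩
    · exact absurd (σ.symm.injective h1) h.ne
    · exact Or.inr ⟨h.symm, h1⟩
  · have : ∀ u v, Relation.TransGen (orient G σ) u v → σ.symm u < σ.symm v := by
      intro u v h
      induction h with
      | single h => exact h.2
      | tail _ h ih => exact ih.trans h.2
    exact lt_irrefl _ (this v v h)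

theorem orient_aux {σ τ : Equiv.Perm (Fin n)} (hσ : IsNF G σ) (h : orient G σ = orient G τ)
    (i : Fin n) (hpre : ∀ k < i, σ k = τ k) : ¬ τ i < σ i := by
  intro hlt
  set j := σ.symm (τ i) with hj
  have hσj : σ j = τ i := by rw [hj, Equiv.apply_symm_apply]
  have hji : i < j := by
    rcases lt_trichotomy i j with h1 | h1 | h1
    · exact h1
    · rw [← h1] at hσj
      rw [hσj] at hlt
      exact absurd hlt (lt_irrefl _)
    · have h2 := hpre j h1
      rw [hσj] at h2
      exact absurd (τ.injective h2) h1.ne'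
  obtain ⟨k, hk1, hk2, hk3⟩ := hσ i j hji (by rw [hσj]; exact hlt)
  have h1 : orient G σ (σ k) (σ j) := ⟨hk3, by simpa using hk2⟩
  rw [h, hσj] at h1
  have h2 : τ.symm (σ k) < i := by simpa using h1.2
  have h3 := hpre _ h2
  rw [Equiv.apply_symm_apply] at h3
  have h4 := σ.injective h3
  rw [h4] at h2
  exact absurd h2 (not_lt.2 hk1)

theorem orient_inj {σ τ : Equiv.Perm (Fin n)} (hσ : IsNF G σ) (hτ : IsNF G τ)
    (h : orient G σ = orient G τ) : σ = τ := by
  have key : ∀ m : ℕ, ∀ i : Fin n, i.val < m → σ i = τ i := by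
    intro m
    induction m with
    | zero => intro i hi; omega
    | succ m ih =>
      intro i hi
      have hpre : ∀ k < i, σ k = τ k := fun k hk => ih k (by have : k.val < i.val := hk; omega)
      rcases lt_trichotomy (σ i) (τ i) with h1 | h1 | h1
      · exact absurd h1 (orient_aux hτ h.symm i fun k hk => (hpre k hk).symm)
      · exact h1
      · exact absurd h1 (orient_aux hσ h i hpre)
  exact Equiv.ext fun i => key n i i.2

/-- topological sorting -/
theorem exists_topo {O : Fin n → Fin n → Prop} (hO : ∀ v, ¬ Relation.TransGen O v v) :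
    ∃ σ : Equiv.Perm (Fin n), ∀ u v, O u v → σ.symm u < σ.symm v := by
  classical
  set f : Fin n → ℕ := fun v => (Finset.univ.filter fun u => Relation.TransGen O u v).card with hf
  have hlt : ∀ u v, O u v → f u < f v := by
    intro u v huv
    apply Finset.card_lt_card
    rw [Finset.ssubset_iff_of_subset]
    · exact ⟨u, by simp [Relation.TransGen.single huv], by simp [hO u]⟩
    · intro w hw
      rw [Finset.mem_filter] at hw ⊢
      exact ⟨hw.1, hw.2.tail huv⟩
  refine ⟨Tuple.sort f, fun u v huv => ?_⟩
  by_contra hcon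
  have h1 := Tuple.monotone_sort f (not_lt.1 hcon)
  simp only [Function.comp_apply, Equiv.apply_symm_apply] at h1
  exact absurd (hlt u v huv) (not_lt.2 h1)

/-- the cyclic shift -/
def cyc (i j : Fin n) (k : Fin n) : Fin n :=
  if k = j then i else if h : i ≤ k ∧ k < j then ⟨k.val + 1, by
    have : k.val < j.val := h.2
    have := j.2
    omega⟩ else k

theorem cyc_val (i j k : Fin n) : (cyc i j k).val =
    if k.val = j.val then i.val else if i.val ≤ k.val ∧ k.val < j.val then k.val + 1 else k.val := by
  unfold cyc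
  by_cases h1 : k = j
  · subst h1
    simp
  · have h2 : ¬ k.val = j.val := fun h => h1 (Fin.ext h)
    rw [if_neg h1, if_neg h2]
    by_cases h3 : i ≤ k ∧ k < j
    · rw [dif_pos h3, if_pos ⟨h3.1, h3.2⟩]
    · rw [dif_neg h3, if_neg (fun h => h3 ⟨h.1, h.2⟩)]

theorem cyc_injective (i j : Fin n) (hij : i < j) : Function.Injective (cyc i j) := by
  intro a b h
  have h1 := congrArg Fin.val h
  rw [cyc_val, cyc_val] at h1
  have h2 : i.val < j.val := hij
  apply Fin.ext
  split_ifs at h1 <;> omega

theorem exists_nf {O : Fin n → Fin n → Prop} (hO : IsAcyclicOrientation G O) :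
    ∃ σ : Equiv.Perm (Fin n), IsNF G σ ∧ orient G σ = O := by
  classical
  set S : Finset (Equiv.Perm (Fin n)) :=
    Finset.univ.filter fun σ => ∀ u v, O u v → σ.symm u < σ.symm v with hS
  have hSn : S.Nonempty := by
    obtain ⟨σ, hσ⟩ := exists_topo hO.acyclic
    exact ⟨σ, by simp [hS]; exact hσ⟩
  obtain ⟨σ, hσS, hmin⟩ := S.exists_min_image
    (fun σ => (toLex (fun i => σ i) : Lex (Fin n → Fin n))) hSn
  have hσ : ∀ u v, O u v → σ.symm u < σ.symm v := by
    rw [hS, Finset.mem_filter] at hσS
    exact hσS.2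
  refine ⟨σ, ?_, ?_⟩
  · intro i j hij hlt
    by_contra hcon
    push Not at hcon
    set c : Equiv.Perm (Fin n) := Equiv.ofBijective _
      (Finite.injective_iff_bijective.1 (cyc_injective i j hij)) with hc
    have hcv : ∀ k, (c k).val = if k.val = j.val then i.val else
        if i.val ≤ k.val ∧ k.val < j.val then k.val + 1 else k.val := fun k => cyc_val i j k
    set τ : Equiv.Perm (Fin n) := c.symm.trans σ with hτ
    have hτs : ∀ v, τ.symm v = c (σ.symm v) := fun v => rfl
    have hτc : ∀ k, τ (c k) = σ k := fun k => by simp [hτ]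
    have hτS : τ ∈ S := by
      rw [hS, Finset.mem_filter]
      refine ⟨Finset.mem_univ _, fun u v huv => ?_⟩
      rw [hτs, hτs, Fin.lt_def, hcv, hcv]
      have h1 : (σ.symm u).val < (σ.symm v).val := hσ u v huv
      by_cases h2 : (σ.symm v).val = j.val
      · have h3 : σ.symm v = j := Fin.ext h2
        have h4 : ¬ i ≤ σ.symm u := by
          intro h4
          have h5 := hcon (σ.symm u) h4 (by rw [← h3]; exact hσ u v huv)
          rw [Equiv.apply_symm_apply, ← h3, Equiv.apply_symm_apply] at h5
          exact h5 (hO.sub u v huv)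
        have h5 : (σ.symm u).val < i.val := not_le.1 h4
        have h6 : i.val < j.val := hij
        split_ifs <;> omega
      · have h6 : i.val < j.val := hij
        split_ifs <;> omega
    have h1 := hmin τ hτS
    refine absurd h1 (not_le.2 ?_)
    refine ⟨i, fun k hk => ?_, ?_⟩
    · have hk' : k.val < i.val := hk
      have h6 : i.val < j.val := hij
      have h2 : c k = k := Fin.ext (by rw [hcv]; split_ifs <;> omega)
      have h3 := hτc k
      rw [h2] at h3
      exact h3
    · have h2 : c j = i := Fin.ext (by rw [hcv]; simp)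
      have h3 := hτc j
      rw [h2] at h3
      show τ i < σ i
      rw [h3]
      exact hlt
  · funext u v
    apply propext
    constructor
    · rintro ⟨h1, h2⟩
      rcases hO.total u v h1 with h3 | h3
      · exact h3
      · exact absurd (hσ v u h3) (not_lt.2 h2.le)
    · intro h
      exact ⟨hO.sub u v h, hσ u v h⟩

/-- **the acyclic orientations are counted by the normal forms** -/
theorem card_ao (G : SimpleGraph (Fin n)) :
    Nat.card {O : Fin n → Fin n → Prop // IsAcyclicOrientation G O} =
      Nat.card {σ : Equiv.Perm (Fin n) // IsNF G σ} := by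
  symm
  refine Nat.card_congr (Equiv.ofBijective (fun σ : {σ : Equiv.Perm (Fin n) // IsNF G σ} =>
    (⟨orient G σ.1, orient_acyclic σ.1⟩ :
      {O : Fin n → Fin n → Prop // IsAcyclicOrientation G O})) ⟨?_, ?_⟩)
  · intro σ τ h
    exact Subtype.ext (orient_inj σ.2 τ.2 (congrArg Subtype.val h))
  · rintro ⟨O, hO⟩
    obtain ⟨σ, h1, h2⟩ := exists_nf hO
    exact ⟨⟨σ, h1⟩, Subtype.ext h2⟩

end Pool.Agent.Y562.AO
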